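import Pool.Agent.Y601.SSE.Ac0

set_option autoImplicit false
set_option linter.unusedSectionVars false

/-!
Reductions of small depth from parity to gap problems: the counting for instances which are lists of
coded items, and for instances which are sets of positions.
-/

namespace Pool.Agent.Q329.AC

open Finset DomAC0 H568R2 Pool.Agent.TH163.AC3 Pool.Agent.Y601.SSE

section lists

open scoped Classical

variable {I : Type} [Fintype I] [DecidableEq I] {M B : Type} [Fintype M] [Fintype B]

/-- Lists of coded items: if each flip changes at least `γ` of the items, which are given by bits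
with decision trees of depth `s`, then there are few coordinates. -/
theorem list_count [Nonempty M] {s : ℕ} (code : (I → Bool) → M → B → Bool) (J : Finset I) (γ : ℝ)
    (hdt : ∀ e b, HasDT s (fun x => code x e b))
    (hpair : ∀ i ∈ J, ∀ x, γ * Fintype.card M ≤
      ((univ.filter fun e => code x e ≠ code (Y601.SSE.flip i x) e).card : ℝ)) :
    γ * J.card ≤ s * Fintype.card B := by
  obtain ⟨x⟩ : Nonempty (I → Bool) := ⟨fun _ => false⟩
  have hM : (0 : ℝ) < Fintype.card M := by exact_mod_cast Fintype.card_pos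
  have h1 : ∑ i ∈ J, (univ.filter fun e => code x e ≠ code (Y601.SSE.flip i x) e).card ≤
      s * Fintype.card B * Fintype.card M := by
    simp_rw [card_filter]
    rw [sum_comm]
    have h2 : ∀ e : M, ∑ i ∈ J, (if code x e ≠ code (Y601.SSE.flip i x) e then 1 else 0) ≤
        s * Fintype.card B := by
      intro e
      rw [← card_filter]
      have h3 : (J.filter fun i => code x e ≠ code (Y601.SSE.flip i x) e) ⊆
          univ.biUnion fun b => J.filter fun i => code (Y601.SSE.flip i x) e b ≠ code x e b := by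
        intro i hi
        rw [mem_filter] at hi
        rw [mem_biUnion]
        by_contra hcon
        push Not at hcon
        apply hi.2
        funext b
        by_contra hb
        exact hcon b (mem_univ b) (mem_filter.2 ⟨hi.1, fun h => hb h.symm⟩)
      refine (card_le_card h3).trans (card_biUnion_le.trans ?_)
      refine (sum_le_sum fun b _ => sens_le (hdt e b) J x).trans ?_
      rw [sum_const, smul_eq_mul, card_univ, mul_comm]
    refine (sum_le_sum fun e _ => h2 e).trans ?_
    rw [sum_const, smul_eq_mul, card_univ, mul_comm]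
  have h4 := sum_le_sum fun i (hi : i ∈ J) => hpair i hi x
  rw [sum_const, nsmul_eq_mul] at h4
  have h5 : ((∑ i ∈ J, (univ.filter fun e => code x e ≠ code (Y601.SSE.flip i x) e).card : ℕ) : ℝ) ≤
      ((s * Fintype.card B * Fintype.card M : ℕ) : ℝ) := by exact_mod_cast h1
  push_cast at h5
  have h6 : γ * J.card * Fintype.card M ≤ s * Fintype.card B * Fintype.card M := by linarith
  exact le_of_mul_le_mul_right h6 hM

end lists

section sets

open scoped Classical

variable {I : Type} [Fintype I] [DecidableEq I] {P : Type} [Fintype P]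

/-- the number of positions of `G` -/
noncomputable def num (G : P → Bool) : ℕ := (univ.filter fun p => G p = true).card

/-- the number of positions of `G` which are not in `H` -/
noncomputable def gone (G H : P → Bool) : ℕ :=
  (univ.filter fun p => G p = true ∧ H p = false).card

theorem gone_sub (G H : P → Bool) : num G + gone H G = num H + gone G H := by
  have h : ∀ A B : P → Bool, num A + gone B A =
      (univ.filter fun p : P => A p = true ∨ B p = true).card := by
    intro A B
    unfold num gone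
    rw [← card_union_of_disjoint]
    · congr 1
      ext p
      simp only [mem_union, mem_filter, mem_univ, true_and]
      cases A p <;> cases B p <;> simp
    · rw [disjoint_left]
      intro p hp hq
      simp only [mem_filter, mem_univ, true_and] at hp hq
      rw [hp] at hq
      exact absurd hq.2 (by simp)
  rw [h G H, h H G]
  congr 1
  ext p
  simp only [mem_filter, mem_univ, true_and]
  tauto

/-- a loss from one side gives a symmetric bound -/
theorem gone_sum {G H : P → Bool} {γ : ℝ} (hγ : 0 ≤ γ) (hγ1 : γ ≤ 1)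
    (h : γ * num H ≤ gone H G) :
    γ * ((num G : ℝ) + num H) / 2 ≤ (gone G H : ℝ) + gone H G := by
  have e4 : (num G : ℝ) + gone H G = num H + gone G H := by
    have := gone_sub G H
    exact_mod_cast this
  have h1 : (0 : ℝ) ≤ gone G H := Nat.cast_nonneg _
  have h2 : (0 : ℝ) ≤ num G := Nat.cast_nonneg _
  have h3 : (0 : ℝ) ≤ num H := Nat.cast_nonneg _
  rcases le_total (num G : ℝ) (num H) with h4 | h4
  · nlinarith
  · -- `gone G H = num G - num H + gone H G`
    have h5 : (gone G H : ℝ) = num G - num H + gone H G := by linarith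
    have h6 : (1 - γ / 2) * ((num G : ℝ) - num H) ≥ 0 :=
      mul_nonneg (by linarith) (by linarith)
    nlinarith

/-- Sets of positions: if each flip removes or adds at least a fraction `γ` of the positions, on
the average of the two numbers of positions, then there are few coordinates. -/
theorem set_count {s : ℕ} (G : (I → Bool) → P → Bool) (J : Finset I) (γ : ℝ)
    (hd : ∀ x, 1 ≤ num (G x)) (hdt : ∀ p, HasDT s (fun x => G x p))
    (hpair : ∀ i ∈ J, ∀ x, γ * ((num (G x) : ℝ) + num (G (Y601.SSE.flip i x))) / 2 ≤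
      (gone (G x) (G (Y601.SSE.flip i x)) : ℝ) + gone (G (Y601.SSE.flip i x)) (G x)) :
    γ * J.card ≤ 2 * s := by
  have hlost : ∀ x, ∑ i ∈ J, gone (G x) (G (Y601.SSE.flip i x)) ≤ s * num (G x) := by
    intro x
    unfold gone
    simp_rw [card_filter]
    rw [sum_comm]
    have h1 : ∀ p : P, ∑ i ∈ J, (if G x p = true ∧ G (Y601.SSE.flip i x) p = false then 1
        else 0) ≤ s * if G x p = true then 1 else 0 := by
      intro p
      by_cases hp : G x p = true
      · simp only [hp, true_and, if_true, mul_one]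
        rw [← card_filter]
        refine le_trans (card_le_card ?_) (sens_le (hdt p) J x)
        intro i hi
        rw [mem_filter] at hi ⊢
        exact ⟨hi.1, by rw [hi.2, hp]; simp⟩
      · simp [hp]
    refine (sum_le_sum fun p _ => h1 p).trans ?_
    rw [← mul_sum, ← card_filter]
    rfl
  have hsum1 : ∑ x, ∑ i ∈ J, (gone (G x) (G (Y601.SSE.flip i x)) : ℝ) ≤ s * ∑ x, (num (G x) : ℝ) := by
    rw [mul_sum]
    refine sum_le_sum fun x _ => ?_
    have h2 : ((∑ i ∈ J, gone (G x) (G (Y601.SSE.flip i x)) : ℕ) : ℝ) ≤ ((s * num (G x) : ℕ) : ℝ) := by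
      exact_mod_cast hlost x
    push_cast at h2
    linarith
  have hinv : ∀ (i : I) (f : (I → Bool) → ℝ), ∑ x, f (Y601.SSE.flip i x) = ∑ x, f x := by
    intro i f
    exact Fintype.sum_equiv ⟨Y601.SSE.flip i, Y601.SSE.flip i, Y601.SSE.flip_flip i, Y601.SSE.flip_flip i⟩ _ _ fun x => rfl
  have hsum2 : ∀ i ∈ J, γ * ∑ x, (num (G x) : ℝ) ≤
      2 * ∑ x, (gone (G x) (G (Y601.SSE.flip i x)) : ℝ) := by
    intro i hi
    have h1 := sum_le_sum fun x (_ : x ∈ (univ : Finset (I → Bool))) => hpair i hi x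
    rw [sum_add_distrib] at h1
    have h2 : ∑ x, (gone (G (Y601.SSE.flip i x)) (G x) : ℝ) = ∑ x, (gone (G x) (G (Y601.SSE.flip i x)) : ℝ) := by
      rw [← hinv i fun x => (gone (G x) (G (Y601.SSE.flip i x)) : ℝ)]
      exact sum_congr rfl fun x _ => by rw [Y601.SSE.flip_flip]
    have h3 : ∑ x, γ * ((num (G x) : ℝ) + num (G (Y601.SSE.flip i x))) / 2 =
        γ * ∑ x, (num (G x) : ℝ) := by
      rw [← sum_div, ← mul_sum, sum_add_distrib, hinv i fun x => (num (G x) : ℝ)]
      ring
    rw [h2, h3] at h1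
    linarith
  have hsum3 := sum_le_sum hsum2
  rw [sum_const, nsmul_eq_mul, ← mul_sum, sum_comm] at hsum3
  have hdpos : 0 < ∑ x, (num (G x) : ℝ) := by
    apply sum_pos
    · intro x _
      have := hd x
      have h2 : 0 < num (G x) := by omega
      exact_mod_cast h2
    · exact univ_nonempty
  have h4 : (γ * J.card) * ∑ x, (num (G x) : ℝ) ≤ (2 * s) * ∑ x, (num (G x) : ℝ) := by
    calc (γ * J.card) * ∑ x, (num (G x) : ℝ)
        = J.card * (γ * ∑ x, (num (G x) : ℝ)) := by ring
      _ ≤ 2 * ∑ x, ∑ i ∈ J, (gone (G x) (G (Y601.SSE.flip i x)) : ℝ) := hsum3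
      _ ≤ 2 * (s * ∑ x, (num (G x) : ℝ)) := by linarith
      _ = _ := by ring
  exact le_of_mul_le_mul_right h4 hdpos

end sets

/-- from the bound for each depth of the decision trees to exponential size -/
theorem large (h : ℕ) : ∃ X0 : ℝ, 1 ≤ X0 ∧ ∀ (X : ℝ) (S : ℕ), X0 ≤ X →
    (∀ s : ℕ, 1 ≤ s → h * S * (24 * s) ^ h ≤ 2 ^ s → X ≤ (24 * s) ^ (h + 1)) →
    (2 : ℝ) ^ (X ^ (1 / (h + 1 : ℝ)) / 100) ≤ S := by
  obtain ⟨Y0, hY48, hY0⟩ := exists_large h
  refine ⟨Y0 ^ (h + 1), one_le_pow₀ (by linarith), ?_⟩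
  intro X S hX hcore
  obtain ⟨Y, hYd⟩ : ∃ Y : ℝ, Y = X ^ (1 / (h + 1 : ℝ)) := ⟨_, rfl⟩
  rw [← hYd]
  have hY00 : (0 : ℝ) ≤ Y0 := by linarith
  have hXpos : 0 ≤ X := le_trans (by positivity) hX
  have hYX : Y ^ (h + 1) = X := by
    rw [hYd, ← Real.rpow_natCast, ← Real.rpow_mul hXpos]
    push_cast
    rw [one_div, inv_mul_cancel₀ (by positivity), Real.rpow_one]
  have hYn : 0 ≤ Y := by rw [hYd]; exact Real.rpow_nonneg hXpos _
  have hYY : Y0 ≤ Y := by
    by_contra hcon
    push Not at hcon
    have := pow_lt_pow_left₀ hcon hYn (Nat.succ_ne_zero h)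
    rw [Nat.succ_eq_add_one, hYX] at this
    linarith
  have hY := hY0 Y hYY
  by_contra hcon
  push Not at hcon
  obtain ⟨s, hs⟩ : ∃ s : ℕ, s = ⌈Y / 24⌉₊ - 1 := ⟨_, rfl⟩
  have hc1 : Y / 24 ≤ ⌈Y / 24⌉₊ := Nat.le_ceil _
  have hc2 : (⌈Y / 24⌉₊ : ℝ) < Y / 24 + 1 := Nat.ceil_lt_add_one (by positivity)
  have hc3 : 2 ≤ ⌈Y / 24⌉₊ := by
    have : (2 : ℝ) ≤ ⌈Y / 24⌉₊ := le_trans (by linarith) hc1
    exact_mod_cast this
  have hs1 : 1 ≤ s := by omega
  have hsr : (s : ℝ) = ⌈Y / 24⌉₊ - 1 := by
    rw [hs, Nat.cast_sub (by omega), Nat.cast_one]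
  have hs2 : 24 * (s : ℝ) < Y := by rw [hsr]; linarith
  have hs3 : Y / 24 - 1 ≤ s := by rw [hsr]; linarith
  have hlt : (24 * (s : ℝ)) ^ (h + 1) < X := by
    rw [← hYX]
    exact pow_lt_pow_left₀ hs2 (by positivity) (Nat.succ_ne_zero h)
  have hcond : h * S * (24 * s) ^ h ≤ 2 ^ s := by
    have h1 : ((h * S * (24 * s) ^ h : ℕ) : ℝ) ≤ ((2 ^ s : ℕ) : ℝ) := by
      push_cast
      calc (h : ℝ) * S * (24 * s) ^ h ≤ h * 2 ^ (Y / 100) * Y ^ h := by
            apply mul_le_mul _ (pow_le_pow_left₀ (by positivity) hs2.le h) (by positivity)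
              (by positivity)
            exact mul_le_mul_of_nonneg_left hcon.le (Nat.cast_nonneg _)
        _ = h * Y ^ h * 2 ^ (Y / 100) := by ring
        _ ≤ 2 ^ (Y / 24 - 1) := hY
        _ ≤ (2 : ℝ) ^ (s : ℝ) := Real.rpow_le_rpow_of_exponent_le (by norm_num) hs3
        _ = 2 ^ s := Real.rpow_natCast _ _
    exact_mod_cast h1
  have := hcore s hs1 hcond
  linarith

open scoped Classical in
/-- Circuits of small depth: lists. -/
theorem list_core {N : ℕ} (C : Circuit (Fin N)) {M B : Type} [Fintype M] [Nonempty M] [Fintype B]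
    (out : M → B → Fin N ⊕ Fin C.size) (h : ℕ) (hh : ∀ e b, C.nodeDepth (out e b) ≤ h)
    (hB : 1 ≤ Fintype.card B) (γ : ℝ) (hγ : 0 ≤ γ)
    (hgap : ∀ x i, γ * Fintype.card M ≤ ((univ.filter fun e =>
      (fun b => C.nodeVal x (out e b)) ≠ fun b => C.nodeVal (Y601.SSE.flip i x) (out e b)).card : ℝ))
    {s : ℕ} (hs : 1 ≤ s) (hcond : h * C.size * (24 * s) ^ h ≤ 2 ^ s) :
    γ * N / Fintype.card B ≤ (24 * s) ^ (h + 1) := by
  have hs0 : (1 : ℝ) ≤ s := by exact_mod_cast hs
  have hB0 : (0 : ℝ) < Fintype.card B := by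
    have : 0 < Fintype.card B := by omega
    exact_mod_cast this
  rcases Nat.eq_zero_or_pos N with hN | hN
  · subst hN
    simp only [Nat.cast_zero, mul_zero, zero_div]
    positivity
  obtain ⟨ρ, hρ, hst⟩ := exists_restr C (by simpa using hN) hs h hcond
  rw [Fintype.card_fin] at hst
  obtain ⟨J, hJ⟩ : ∃ J : Finset (Fin N), J = univ.filter fun i => ρ i = none := ⟨_, rfl⟩
  rw [← hJ] at hst
  have hcount := list_count (s := s) (fun x e b => C.nodeVal (ov ρ x) (out e b)) J γ
    (fun e b => node_dt C hs hρ (out e b) (hh e b)) (fun i hi x => by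
      rw [hJ, mem_filter] at hi
      show γ * Fintype.card M ≤ ((univ.filter fun e =>
        (fun b => C.nodeVal (ov ρ x) (out e b)) ≠
          fun b => C.nodeVal (ov ρ (Y601.SSE.flip i x)) (out e b)).card : ℝ)
      rw [ov_flip ρ i hi.2]
      exact hgap (ov ρ x) i)
  rw [div_le_iff₀ hB0]
  calc γ * N ≤ γ * (4 * (24 * s) ^ h * J.card) := mul_le_mul_of_nonneg_left hst hγ
    _ = 4 * (24 * s) ^ h * (γ * J.card) := by ring
    _ ≤ 4 * (24 * s) ^ h * (s * Fintype.card B) :=
        mul_le_mul_of_nonneg_left hcount (by positivity)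
    _ ≤ (24 * s) ^ (h + 1) * Fintype.card B := by
        rw [pow_succ]
        have : (0 : ℝ) ≤ (24 * s) ^ h * (s * Fintype.card B) := by positivity
        nlinarith

open scoped Classical in
/-- Circuits of small depth: sets of positions. -/
theorem set_core {N : ℕ} (C : Circuit (Fin N)) {P : Type} [Fintype P]
    (out : P → Fin N ⊕ Fin C.size) (h : ℕ) (hh : ∀ p, C.nodeDepth (out p) ≤ h)
    (γ : ℝ) (hγ : 0 ≤ γ) (hne : ∀ x, 1 ≤ num fun p => C.nodeVal x (out p))
    (hgap : ∀ x i, γ * ((num (fun p => C.nodeVal x (out p)) : ℝ) +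
      num (fun p => C.nodeVal (Y601.SSE.flip i x) (out p))) / 2 ≤
      (gone (fun p => C.nodeVal x (out p)) (fun p => C.nodeVal (Y601.SSE.flip i x) (out p)) : ℝ) +
        gone (fun p => C.nodeVal (Y601.SSE.flip i x) (out p)) (fun p => C.nodeVal x (out p)))
    {s : ℕ} (hs : 1 ≤ s) (hcond : h * C.size * (24 * s) ^ h ≤ 2 ^ s) :
    γ * N ≤ (24 * s) ^ (h + 1) := by
  have hs0 : (1 : ℝ) ≤ s := by exact_mod_cast hs
  rcases Nat.eq_zero_or_pos N with hN | hN
  · subst hN
    simp only [Nat.cast_zero, mul_zero]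
    positivity
  obtain ⟨ρ, hρ, hst⟩ := exists_restr C (by simpa using hN) hs h hcond
  rw [Fintype.card_fin] at hst
  obtain ⟨J, hJ⟩ : ∃ J : Finset (Fin N), J = univ.filter fun i => ρ i = none := ⟨_, rfl⟩
  rw [← hJ] at hst
  have hcount := set_count (s := s) (fun x p => C.nodeVal (ov ρ x) (out p)) J γ
    (fun x => hne _) (fun p => node_dt C hs hρ (out p) (hh p)) (fun i hi x => by
      rw [hJ, mem_filter] at hi
      show γ * ((num (fun p => C.nodeVal (ov ρ x) (out p)) : ℝ) +
        num (fun p => C.nodeVal (ov ρ (Y601.SSE.flip i x)) (out p))) / 2 ≤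
        (gone (fun p => C.nodeVal (ov ρ x) (out p))
          (fun p => C.nodeVal (ov ρ (Y601.SSE.flip i x)) (out p)) : ℝ) +
          gone (fun p => C.nodeVal (ov ρ (Y601.SSE.flip i x)) (out p))
            (fun p => C.nodeVal (ov ρ x) (out p))
      rw [ov_flip ρ i hi.2]
      exact hgap (ov ρ x) i)
  calc γ * N ≤ γ * (4 * (24 * s) ^ h * J.card) := mul_le_mul_of_nonneg_left hst hγ
    _ = 4 * (24 * s) ^ h * (γ * J.card) := by ring
    _ ≤ 4 * (24 * s) ^ h * (2 * s) := mul_le_mul_of_nonneg_left hcount (by positivity)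
    _ ≤ (24 * s) ^ (h + 1) := by
        rw [pow_succ]
        have : (0 : ℝ) ≤ (24 * s) ^ h * s := by positivity
        nlinarith

end Pool.Agent.Q329.AC
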